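import Pool.Agent.Q100.CT.Stm

set_option autoImplicit false

open Set Filter Topology

namespace Pool.Agent.Q86.CT

open Pool.Agent.Q100.CT

theorem finite_norm_le (n L : ℕ) : {w : FreeGroup (Fin n) | w.norm ≤ L}.Finite := by
  have h : (FreeGroup.toWord ⁻¹' {l : List (Fin n × Bool) | l.length ≤ L}).Finite :=
    (List.finite_length_le (Fin n × Bool) L).preimage FreeGroup.toWord_injective.injOn
  exact h

theorem word_ind {n : ℕ} (P : FreeGroup (Fin n) → Prop) (h1 : P 1)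
    (hs : ∀ u g, g.norm ≤ 1 → P u → P (u * g)) (w : FreeGroup (Fin n)) : P w := by
  have key : ∀ l : List (Fin n × Bool), P (FreeGroup.mk l) := by
    intro l
    induction l using List.reverseRecOn with
    | nil => exact h1
    | append_singleton l x ih =>
      have e : FreeGroup.mk (l ++ [x]) = FreeGroup.mk l * FreeGroup.mk [x] := by
        rw [FreeGroup.mul_mk]
      rw [e]
      refine hs _ _ ?_ ih
      exact (FreeGroup.norm_mk_le).trans (by simp)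
  have := key w.toWord
  rwa [FreeGroup.mk_toWord] at this

theorem fp : S_lift → S_fp := by
  intro hlift V Z _ _ _ _ B n N hN hQI
  obtain ⟨h, f, K, hK, q1, q2, q3, q4⟩ := hQI
  set A : ℕ := K * (2 * K) + K with hA
  have hA3 : 3 * K ≤ A := by rw [hA]; nlinarith
  set S : Set (FreeGroup (Fin n)) := {w | w ∈ N ∧ w.norm ≤ 5 * A} with hS
  have hSfin : S.Finite := (finite_norm_le n (5 * A)).subset fun w hw => hw.2
  set M : Subgroup (FreeGroup (Fin n)) := Subgroup.normalClosure S with hM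
  have hMn : M.Normal := Subgroup.normalClosure_normal
  have hMN : M ≤ N := Subgroup.normalClosure_le_normal fun w hw => hw.1
  have hSM : ∀ w ∈ N, w.norm ≤ 5 * A → w ∈ M := fun w hw hn =>
    Subgroup.subset_normalClosure ⟨hw, hn⟩
  have hKr : (1 : ℝ) ≤ K := by exact_mod_cast hK
  obtain ⟨H, hH1, hH2⟩ := hlift V Z B n M N A (2 * K) h hMn hN hMN hSM (by linarith)
    (fun x y hxy => q1 (2 * K) x y (by push_cast; exact hxy))
  -- the short words
  have hw : ∀ u, ∃ w : FreeGroup (Fin n), w.norm ≤ K ∧ u⁻¹ * (H (f u) * w) ∈ N := by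
    intro u
    obtain ⟨w, hw1, hw2⟩ := q3 u
    refine ⟨w, hw1, ?_⟩
    have h3 := hN.conj_mem _ (hH1 (f u)) w⁻¹
    have h4 := N.mul_mem hw2 h3
    have e : u⁻¹ * h (f u) * w * (w⁻¹ * ((h (f u))⁻¹ * H (f u)) * w⁻¹⁻¹) =
      u⁻¹ * (H (f u) * w) := by group
    rwa [e] at h4
  choose W hW1 hW2 using hw
  set σ : FreeGroup (Fin n) → FreeGroup (Fin n) := fun u => H (f u) * W u with hσ
  have hσN : ∀ u, u⁻¹ * σ u ∈ N := hW2
  -- a general comparison
  have hcomp : ∀ u v g : FreeGroup (Fin n), rho B (f v) (f u) ≤ 2 * K → g.norm ≤ 1 →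
      (σ u * g)⁻¹ * σ v ∈ N → (σ u * g)⁻¹ * σ v ∈ M := by
    intro u v g hr hg hmem
    obtain ⟨c, hc1, hc2⟩ := hH2 _ _ hr
    -- hc2 : (H (f u))⁻¹ * H (f v) * c ∈ M
    have h1 : g⁻¹ * (W u)⁻¹ * c⁻¹ * W v ∈ M := by
      apply hSM
      · have h2 := hMn.conj_mem _ hc2 ((W u * g)⁻¹)
        have h3 := N.mul_mem (N.inv_mem (hMN h2)) hmem
        have e : ((W u * g)⁻¹ * ((H (f u))⁻¹ * H (f v) * c) * (W u * g)⁻¹⁻¹)⁻¹ *
            ((σ u * g)⁻¹ * σ v) = g⁻¹ * (W u)⁻¹ * c⁻¹ * W v := by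
          simp only [hσ]; group
        rwa [e] at h3
      · have a1 := FreeGroup.norm_mul_le (g⁻¹ * (W u)⁻¹ * c⁻¹) (W v)
        have a2 := FreeGroup.norm_mul_le (g⁻¹ * (W u)⁻¹) c⁻¹
        have a3 := FreeGroup.norm_mul_le g⁻¹ (W u)⁻¹
        have a4 := hW1 u
        have a5 := hW1 v
        rw [FreeGroup.norm_inv_eq] at a2 a3
        rw [FreeGroup.norm_inv_eq] at a3
        omega
    have h2 := hMn.conj_mem _ hc2 ((W u * g)⁻¹)
    have h3 := M.mul_mem h2 h1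
    have e : ((W u * g)⁻¹ * ((H (f u))⁻¹ * H (f v) * c) * (W u * g)⁻¹⁻¹) *
        (g⁻¹ * (W u)⁻¹ * c⁻¹ * W v) = (σ u * g)⁻¹ * σ v := by
      simp only [hσ]; group
    rwa [e] at h3
  have hstep : ∀ u g : FreeGroup (Fin n), g.norm ≤ 1 → (σ u * g)⁻¹ * σ (u * g) ∈ M := by
    intro u g hg
    apply hcomp u (u * g) g _ hg
    · have h1 := hN.conj_mem _ (N.inv_mem (hσN u)) g⁻¹
      have h2 := N.mul_mem h1 (hσN (u * g))
      have e : g⁻¹ * (u⁻¹ * σ u)⁻¹ * g⁻¹⁻¹ * ((u * g)⁻¹ * σ (u * g)) =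
          (σ u * g)⁻¹ * σ (u * g) := by group
      rwa [e] at h2
    · have h1 : Cl N 1 u (u * g) := ⟨g, hg, by
        have e : (u * g)⁻¹ * u * g = 1 := by group
        rw [e]; exact N.one_mem⟩
      have h2 := q2 1 _ _ h1
      rw [rho_comm]
      push_cast at h2
      linarith
  have hall : ∀ w, (σ 1 * w)⁻¹ * σ w ∈ M := by
    intro w
    refine word_ind (fun w => (σ 1 * w)⁻¹ * σ w ∈ M) ?_ ?_ w
    · have e : (σ 1 * 1)⁻¹ * σ 1 = 1 := by group
      simp only [e]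
      exact M.one_mem
    · intro u g hg ih
      have h1 := hMn.conj_mem _ ih g⁻¹
      have h2 := M.mul_mem h1 (hstep u g hg)
      have e : g⁻¹ * ((σ 1 * u)⁻¹ * σ u) * g⁻¹⁻¹ * ((σ u * g)⁻¹ * σ (u * g)) =
          (σ 1 * (u * g))⁻¹ * σ (u * g) := by group
      rwa [e] at h2
  refine ⟨S, hSfin, le_antisymm ?_ hMN⟩
  intro w hwN
  have h0 : (σ 1 * 1)⁻¹ * σ w ∈ M := by
    apply hcomp 1 w 1
    · have h1 : Cl N 0 w 1 := ⟨1, by simp, by simpa using hwN⟩
      have h2 := q2 0 _ _ h1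
      push_cast at h2
      linarith
    · simp
    · have h1 := hσN 1
      have h2 := N.mul_mem hwN (hσN w)
      have h3 := N.mul_mem (N.inv_mem h1) h2
      have e : (1⁻¹ * σ 1)⁻¹ * (w * (w⁻¹ * σ w)) = (σ 1 * 1)⁻¹ * σ w := by group
      rwa [e] at h3
  have h1 := M.mul_mem h0 (M.inv_mem (hall w))
  have e : (σ 1 * 1)⁻¹ * σ w * ((σ 1 * w)⁻¹ * σ w)⁻¹ = (σ 1)⁻¹ * σ 1 * w := by group
  rw [e] at h1
  simpa using h1

end Pool.Agent.Q86.CT
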